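import Pool.Agent.Helper40_Dio.FStmt
import Pool.Agent.Helper59_DIO.Cly

/-! # DIO Part F, module CLL: classification of `(y, x)` for the type `s` (helper18) -/

set_option autoImplicit false

namespace Pool.Agent.DIO.H18

open Pool.Agent.DIO.H59

/-- module CLL -/
theorem cll (hPEL : PelStatement) : CllStatement := by
  intro a b c d r s t g u v w x y z ε μ ν hC _ hT
  obtain ⟨-, -, -, e2⟩ := hT
  have haz : (0 : ℤ) < a := by exact_mod_cast hC.ha
  have habz : (a : ℤ) < b := by exact_mod_cast hC.hab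
  have hrz : (r : ℤ) * r = a * b + 1 := by exact_mod_cast hC.hr
  have htz : (t : ℤ) * t = b * c + 1 := by exact_mod_cast hC.ht
  have hr0 : (0 : ℤ) < r := by
    have : 0 < r := by
      rcases Nat.eq_zero_or_pos r with h | h
      · have := hC.hr
        rw [h] at this; omega
      · exact h
    exact_mod_cast this
  have i3 : (a : ℤ) * y ^ 2 - b * x ^ 2 = a - b := by
    linear_combination (a : ℤ) * hC.y2 - (b : ℤ) * hC.x2
  obtain ⟨k, y0, x0, hx0, hp, hsm, hk⟩ :=
    hPEL a b r y x haz habz hr0 hrz hC.hy hC.hx i3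
  have hrr : (r : ℤ) * r ≡ 1 [ZMOD b] := by
    rw [hrz]
    have : (a : ℤ) * b + 1 ≡ 0 + 1 [ZMOD b] :=
      Int.ModEq.add_right 1 (Int.modEq_zero_iff_dvd.mpr (dvd_mul_left _ _))
    rwa [zero_add] at this
  have htt : (t : ℤ) * t ≡ 1 [ZMOD b] := by
    rw [htz]
    have : (b : ℤ) * c + 1 ≡ 0 + 1 [ZMOD b] :=
      Int.ModEq.add_right 1 (Int.modEq_zero_iff_dvd.mpr (dvd_mul_right _ _))
    rwa [zero_add] at this
  have m1 : y ≡ (r : ℤ) ^ k * y0 [ZMOD b] := by
    have := sqg_fst_mod a b r y0 x0 k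
    rw [hk] at this
    exact this
  have m2 : y ≡ r [ZMOD b] := by
    have h := sqg_snd_mod b c t (ε * s) r (2 * ν)
    rw [e2] at h
    have h2 := (pow_mod_even htt (even_two_mul ν)).mul_right (r : ℤ)
    rw [one_mul] at h2
    exact h.trans h2
  have m3 : (r : ℤ) ^ k * y0 ≡ r [ZMOD b] := m1.symm.trans m2
  obtain ⟨hlt1, hlt2⟩ := bounds_y (by omega : (0 : ℤ) < b) hsm
  obtain ⟨hrb, har⟩ := r_bounds haz habz hr0 hrz
  by_cases hke : Even k
  · -- `y0 ≡ r`
    have m4 : y0 ≡ r [ZMOD b] := by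
      have h1 := ((pow_mod_even hrr hke).mul_right y0).symm.trans m3
      simpa using h1
    obtain ⟨w', hw⟩ := m4.symm.dvd
    have hw0 : w' = 0 ∨ w' = -1 := small_w' (by omega) hlt1 hlt2 hr0 hrb hw
    rcases hw0 with hw0 | hw0
    · exfalso
      have hy0 : y0 = r := by rw [hw0] at hw; linarith
      rw [hy0] at hp
      have h1 : (b : ℤ) * (x0 ^ 2) = b * (a ^ 2 + 1) := by linear_combination -hp + (a : ℤ) * hrz
      have h2 := mul_left_cancel₀ (by omega : (b : ℤ) ≠ 0) h1
      exact no_sq hx0 haz h2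
    · have hy0 : y0 = r - b := by rw [hw0] at hw; linarith
      have hx1 : x0 = r - a := by
        rw [hy0] at hp
        have h1 : (b : ℤ) * (x0 ^ 2) = b * ((r - a) ^ 2) := by
          linear_combination -hp + ((a : ℤ) - b) * hrz
        have h2 := mul_left_cancel₀ (by omega : (b : ℤ) ≠ 0) h1
        exact sq_eq_pos hx0 (by linarith) h2
      obtain ⟨j, hj⟩ := hke
      rcases Nat.eq_zero_or_pos j with hj0 | hjpos
      · exfalso
        rw [hj, hj0] at hk
        have h1 : y0 = y := congrArg Prod.fst hk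
        have := hC.hy
        rw [← h1, hy0] at this
        linarith
      · obtain ⟨l, rfl⟩ : ∃ l, j = l + 1 := ⟨j - 1, by omega⟩
        refine ⟨l, ?_⟩
        have hk' : k = (2 * l + 1) + 1 := by omega
        have e1 : (r : ℤ) * (r - b) + b * (r - a) = 1 := by linear_combination hrz
        have e3 : (r : ℤ) * (r - a) + a * (r - b) = 1 := by linear_combination hrz
        rw [← hk, hk', hy0, hx1, sqg_shift (a : ℤ) b r ((r : ℤ) - b) ((r : ℤ) - a) (2 * l + 1), e1,
          e3]
  · -- `y0 ≡ 1`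
    have m4 : y0 ≡ 1 [ZMOD b] := by
      have h1 := ((pow_mod_odd hrr hke).mul_right y0).symm.trans m3
      have h2 := h1.mul_left (r : ℤ)
      rw [← mul_assoc] at h2
      have h3 := ((hrr.mul_right y0).symm.trans h2).trans hrr
      simpa using h3
    obtain ⟨w', hw⟩ := m4.symm.dvd
    have hw0 : w' = 0 := small_w (by omega) hlt1 hlt2 hw
    have hy0 : y0 = 1 := by rw [hw0] at hw; linarith
    have hx1 : x0 = 1 := by
      rw [hy0] at hp
      have h1 : (b : ℤ) * (x0 ^ 2) = b * 1 := by linear_combination -hp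
      have h2 := mul_left_cancel₀ (by omega : (b : ℤ) ≠ 0) h1
      exact sq_eq_pos hx0 one_pos (by rw [h2]; norm_num)
    obtain ⟨l, hl⟩ := Nat.not_even_iff_odd.mp hke
    refine ⟨l, ?_⟩
    rw [← hk, hy0, hx1, hl]

end Pool.Agent.DIO.H18
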