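import Pool.Agent.Helper40_Dio.FStmt

/-! # DIO Part F, module FDB: every extension is bounded in terms of the triple (helper18) -/

set_option autoImplicit false

namespace Pool.Agent.DIO.H18

open Real

theorem sqg_size (a c s z0 x0 : ℤ) (ha : 0 ≤ a) (hs : 0 ≤ s) (hac : a ≤ c) (hsc : s ≤ c) (m : ℕ) :
    |(sqg a c s z0 x0 m).1| + |(sqg a c s z0 x0 m).2| ≤ (2 * c) ^ m * (|z0| + |x0|) := by
  have hc : 0 ≤ c := ha.trans hac
  induction m with
  | zero => simp [sqg]
  | succ m ih =>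
    set z := (sqg a c s z0 x0 m).1 with hz
    set x := (sqg a c s z0 x0 m).2 with hx
    have e1 : (sqg a c s z0 x0 (m + 1)).1 = s * z + c * x := rfl
    have e2 : (sqg a c s z0 x0 (m + 1)).2 = s * x + a * z := rfl
    rw [e1, e2]
    have h1 : |s * z + c * x| ≤ s * |z| + c * |x| := by
      refine (abs_add_le _ _).trans ?_
      rw [abs_mul, abs_mul, abs_of_nonneg hs, abs_of_nonneg hc]
    have h2 : |s * x + a * z| ≤ s * |x| + a * |z| := by
      refine (abs_add_le _ _).trans ?_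
      rw [abs_mul, abs_mul, abs_of_nonneg hs, abs_of_nonneg ha]
    have h3 : s * |z| ≤ c * |z| := mul_le_mul_of_nonneg_right hsc (abs_nonneg _)
    have h4 : s * |x| ≤ c * |x| := mul_le_mul_of_nonneg_right hsc (abs_nonneg _)
    have h5 : a * |z| ≤ c * |z| := mul_le_mul_of_nonneg_right hac (abs_nonneg _)
    have h6 : 2 * c * (|z| + |x|) ≤ 2 * c * ((2 * c) ^ m * (|z0| + |x0|)) :=
      mul_le_mul_of_nonneg_left ih (by linarith)
    calc _ ≤ 2 * c * (|z| + |x|) := by linarith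
      _ ≤ _ := h6
      _ = _ := by ring

theorem fdb (hPEL : PelStatement) (hAPB : ApbStatement) : FdbStatement := by
  obtain ⟨C, hC1, hC⟩ := hAPB
  refine ⟨4 * (C + 1), by linarith, ?_⟩
  intro a b c d r s t x y z hX
  have haz : (0 : ℤ) < a := by exact_mod_cast hX.ha
  have habz : (a : ℤ) < b := by exact_mod_cast hX.hab
  have hbcz : (b : ℤ) < c := by exact_mod_cast hX.hbc
  have hsz : (s : ℤ) * s = a * c + 1 := by exact_mod_cast hX.hs
  have htz : (t : ℤ) * t = b * c + 1 := by exact_mod_cast hX.ht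
  have pos : ∀ n k : ℕ, n * n = k + 1 → (0 : ℤ) < n := by
    intro n k h
    have : 0 < n := by
      rcases Nat.eq_zero_or_pos n with h0 | h0
      · rw [h0] at h; omega
      · exact h0
    exact_mod_cast this
  have hs0 := pos s _ hX.hs
  have ht0 := pos t _ hX.ht
  have i1 : (a : ℤ) * z ^ 2 - c * x ^ 2 = a - c := by
    linear_combination (a : ℤ) * hX.z2 - (c : ℤ) * hX.x2
  have i2 : (b : ℤ) * z ^ 2 - c * y ^ 2 = b - c := by
    linear_combination (b : ℤ) * hX.z2 - (c : ℤ) * hX.y2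
  obtain ⟨m, z0, x0, hx0, hp0, hsm0, hk0⟩ :=
    hPEL a c s z x haz (by omega) hs0 hsz hX.hz hX.hx i1
  obtain ⟨n, z1, y1, hy1, hp1, hsm1, hk1⟩ :=
    hPEL b c t z y (by omega) hbcz ht0 htz hX.hz hX.hy i2
  have hd : (c : ℤ) < d := by exact_mod_cast hX.hcd
  have hz1 : 1 < z := by
    by_contra hcon
    have h1 : z = 1 := by have := hX.hz; omega
    have h2 := hX.z2
    rw [h1] at h2
    have h3 : 0 < (c : ℤ) * d := mul_pos (by omega) (by omega)
    linarith
  have hM : Meet1 a b c r s t z0 x0 z1 y1 x y z m n :=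
    { ha := hX.ha, hab := hX.hab, hbc := hX.hbc, hr := hX.hr, hs := hX.hs, ht := hX.ht
      x0pos := hx0, y1pos := hy1, p0 := hp0, p1 := hp1, h0 := hsm0, h1 := hsm1, hz := hz1
      e1 := hk0, e2 := hk1 }
  have hmn := hC _ _ _ _ _ _ _ _ _ _ _ _ _ _ _ hM
  -- sizes
  have hsc : (s : ℤ) ≤ c := by
    by_contra hcon
    push Not at hcon
    nlinarith
  have hc0 : (0 : ℤ) < c := by omega
  have hz0 : |z0| ≤ c := by
    have h1 : (2 * z0) ^ 2 < (c : ℤ) ^ 2 := by linarith [mul_pow 2 z0 2]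
    have h2 := abs_lt_of_sq_lt_sq h1 hc0.le
    rw [abs_mul] at h2
    have h3 : |(2 : ℤ)| = 2 := by norm_num
    rw [h3] at h2
    have := abs_nonneg z0
    linarith
  have hx0c : x0 ≤ c := by
    by_contra hcon
    push Not at hcon
    have h1 : (c : ℤ) ^ 2 < x0 ^ 2 := by nlinarith
    have h2 : (c : ℤ) * c ^ 2 < c * x0 ^ 2 := mul_lt_mul_of_pos_left h1 hc0
    have h3 : (a : ℤ) * (4 * z0 ^ 2) ≤ a * c ^ 2 := mul_le_mul_of_nonneg_left hsm0.le haz.le
    have h4 : (a : ℤ) * c ^ 2 ≤ c * c ^ 2 := mul_le_mul_of_nonneg_right (by omega) (by positivity)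
    nlinarith
  have hsize := sqg_size a c s z0 x0 haz.le hs0.le (by omega) hsc m
  rw [hk0] at hsize
  simp only at hsize
  have hzb : z ≤ (2 * (c : ℤ)) ^ (m + 1) := by
    have h1 : |z0| + |x0| ≤ 2 * c := by
      rw [abs_of_pos hx0]; linarith
    have h2 : (2 * (c : ℤ)) ^ m * (|z0| + |x0|) ≤ (2 * (c : ℤ)) ^ m * (2 * c) :=
      mul_le_mul_of_nonneg_left h1 (by positivity)
    have h3 := le_abs_self z
    have h4 := abs_nonneg x
    rw [pow_succ]
    linarith
  have hdz : (d : ℤ) ≤ z ^ 2 := by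
    have h2 := hX.z2
    have h3 : (1 : ℤ) * d ≤ c * d := mul_le_mul_of_nonneg_right (by omega) (by omega)
    rw [sq, h2]
    linarith
  -- reals
  have hcR : (3 : ℝ) ≤ c := by
    have : 3 ≤ c := by have := hX.ha; have := hX.hab; have := hX.hbc; omega
    exact_mod_cast this
  have hcpos : (0 : ℝ) < c := by linarith
  have hL1 : 1 ≤ log (c : ℝ) := by
    rw [Real.le_log_iff_exp_le hcpos]
    have := Real.exp_one_lt_d9
    linarith
  have hdR : (d : ℝ) ≤ (2 * (c : ℝ)) ^ (2 * (m + 1)) := by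
    have h1 : (d : ℤ) ≤ (2 * (c : ℤ)) ^ (2 * (m + 1)) := by
      have h2 : z ^ 2 ≤ ((2 * (c : ℤ)) ^ (m + 1)) ^ 2 :=
        pow_le_pow_left₀ (by omega) hzb 2
      calc (d : ℤ) ≤ z ^ 2 := hdz
        _ ≤ _ := h2
        _ = _ := by rw [← pow_mul, mul_comm (m + 1) 2]
    exact_mod_cast h1
  have hdpos : (0 : ℝ) < d := by
    have : 0 < d := by have := hX.hcd; omega
    exact_mod_cast this
  have h1 : log (d : ℝ) ≤ (2 * ((m : ℝ) + 1)) * log (2 * c) := by
    have h2 := Real.log_le_log hdpos hdR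
    rw [Real.log_pow] at h2
    push_cast at h2
    exact h2
  have h2 : log (2 * (c : ℝ)) ≤ 2 * log c := by
    rw [Real.log_mul (by norm_num) hcpos.ne']
    have : log 2 ≤ log (c : ℝ) := Real.log_le_log (by norm_num) (by linarith)
    linarith
  have h3 : (m : ℝ) ≤ C * log c ^ 60 := by
    have : (0 : ℝ) ≤ n := by positivity
    linarith
  have hLp : 1 ≤ log (c : ℝ) ^ 60 := one_le_pow₀ hL1
  have h4 : (2 * ((m : ℝ) + 1)) * log (2 * c) ≤ (2 * (C * log c ^ 60 + log c ^ 60)) * (2 * log c) := by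
    refine mul_le_mul (by linarith) h2 (Real.log_nonneg (by linarith)) (by positivity)
  calc log (d : ℝ) ≤ _ := h1
    _ ≤ _ := h4
    _ = 4 * (C + 1) * log c ^ 61 := by ring

end Pool.Agent.DIO.H18
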