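import Pool.Agent.Helper40_Dio.AStmt

/-! # DIO, module GAP: a Diophantine triple is an Euler triple or comes from a smaller
extension (helper18) -/

set_option autoImplicit false

namespace Pool.Agent.DIO.H18

theorem not_sq_succ {x : ℤ} (hx : 0 < x) (q : ℤ) (hq : 0 ≤ q) : x * x + 1 ≠ q * q := by
  intro h
  rcases lt_or_ge x q with h1 | h1
  · have h2 : (x + 1) * (x + 1) ≤ q * q := by
      have : x + 1 ≤ q := h1
      nlinarith
    nlinarith
  · nlinarith

theorem sq_lt_aux {A B X Y Z : ℤ} (h2 : A ^ 2 - B ^ 2 = X * Y + X * Z + 1 - X ^ 2)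
    (h3 : X * X < X * Y) (h4 : 0 < X * Z) : B ^ 2 < A ^ 2 := by
  have h5 : X ^ 2 = X * X := sq X
  linarith

theorem sq_lt_aux' {A B X Y Z : ℤ} (h2 : A ^ 2 - B ^ 2 = X * Y + Y * Z + 1 - Y ^ 2)
    (h3 : Y * Y < Y * Z) (h4 : 0 < X * Y) : B ^ 2 < A ^ 2 := by
  have h5 : Y ^ 2 = Y * Y := sq Y
  linarith

theorem neg_aux {Y e : ℤ} (hY : 0 < Y) (he : e < 0) : Y * e ≤ -Y := by
  have h1 : e + 1 ≤ 0 := he
  have h2 : Y * (e + 1) ≤ Y * 0 := mul_le_mul_of_nonneg_left h1 hY.le
  linarith

theorem one_aux {X P : ℤ} (hP : 0 < P) (h : X * 0 + 1 = P * P) : P = 1 := by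
  rcases lt_or_ge 1 P with h1 | h1
  · have h2 : P * 1 < P * P := mul_lt_mul_of_pos_left h1 hP
    linarith
  · have h3 : 1 ≤ P := hP
    exact le_antisymm h1 h3

/-- module GAP -/
theorem gap : GapStatement := by
  rintro x y z ⟨hx, hxy, hyz, ⟨r, hr⟩, ⟨s, hs⟩, ⟨t, ht⟩⟩
  -- integers
  have hX : (0 : ℤ) < x := by exact_mod_cast hx
  have hXY : (x : ℤ) < y := by exact_mod_cast hxy
  have hYZ : (y : ℤ) < z := by exact_mod_cast hyz
  have hR : (x : ℤ) * y + 1 = r * r := by exact_mod_cast hr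
  have hS : (x : ℤ) * z + 1 = s * s := by exact_mod_cast hs
  have hT : (y : ℤ) * z + 1 = t * t := by exact_mod_cast ht
  have hr0 : (0 : ℤ) ≤ r := Int.natCast_nonneg r
  have hs0 : (0 : ℤ) ≤ s := Int.natCast_nonneg s
  have ht0 : (0 : ℤ) ≤ t := Int.natCast_nonneg t
  generalize hXd : (x : ℤ) = X at *
  generalize hYd : (y : ℤ) = Y at *
  generalize hZd : (z : ℤ) = Z at *
  generalize hRd : (r : ℤ) = R at *
  generalize hSd : (s : ℤ) = S at *
  generalize hTd : (t : ℤ) = T at *
  have hY : 0 < Y := hX.trans hXY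
  have hZ : 0 < Z := hY.trans hYZ
  set e : ℤ := X + Y + Z + 2 * X * Y * Z - 2 * R * S * T with he
  set P : ℤ := R * S - X * T with hP
  set Q : ℤ := R * T - Y * S with hQ
  have e1 : X * e + 1 = P * P := by
    rw [he, hP]
    linear_combination (S * S) * hR + (X * Y + 1) * hS + X ^ 2 * hT
  have e2 : Y * e + 1 = Q * Q := by
    rw [he, hQ]
    linear_combination (T * T) * hR + (X * Y + 1) * hT + Y ^ 2 * hS
  have e3 : Z = X + Y + e + 2 * X * Y * e + 2 * (R * P * Q) := by
    rw [he, hP, hQ]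
    linear_combination (2 * R * S * T - 2 * Y * S ^ 2 - 2 * X * T ^ 2) * hR
      - 2 * Y * (X * Y + 1) * hS - 2 * X * (X * Y + 1) * hT
  have hPpos : 0 < P := by
    have h1 : (X * T) ^ 2 < (R * S) ^ 2 := by
      have h2 : (R * S) ^ 2 - (X * T) ^ 2 = X * Y + X * Z + 1 - X ^ 2 := by
        linear_combination -(S * S) * hR - (X * Y + 1) * hS + X ^ 2 * hT
      have h3 : X * X < X * Y := mul_lt_mul_of_pos_left hXY hX
      have h4 : 0 < X * Z := mul_pos hX hZ
      exact sq_lt_aux h2 h3 h4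
    have h5 : X * T < R * S := lt_of_pow_lt_pow_left₀ 2 (mul_nonneg hr0 hs0) h1
    rw [hP]
    linarith
  have hQpos : 0 < Q := by
    have h1 : (Y * S) ^ 2 < (R * T) ^ 2 := by
      have h2 : (R * T) ^ 2 - (Y * S) ^ 2 = X * Y + Y * Z + 1 - Y ^ 2 := by
        linear_combination -(T * T) * hR - (X * Y + 1) * hT + Y ^ 2 * hS
      have h3 : Y * Y < Y * Z := mul_lt_mul_of_pos_left hYZ hY
      have h4 : 0 < X * Y := mul_pos hX hY
      exact sq_lt_aux' h2 h3 h4
    have h5 : Y * S < R * T := lt_of_pow_lt_pow_left₀ 2 (mul_nonneg hr0 ht0) h1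
    rw [hQ]
    linarith
  have he0 : 0 ≤ e := by
    by_contra hcon
    rw [not_le] at hcon
    have h1 : Y * e ≤ -Y := neg_aux hY hcon
    have h2 : 0 ≤ Q * Q := mul_self_nonneg Q
    have h3 : Y ≤ 1 := by linarith
    linarith
  rcases eq_or_lt_of_le he0 with h0 | hpos
  · left
    have hP1 : P = 1 := by
      rw [← h0] at e1
      exact one_aux hPpos e1
    have hQ1 : Q = 1 := by
      rw [← h0] at e2
      exact one_aux hQpos e2
    refine ⟨r, hx, hxy, hr.symm, ?_⟩
    rw [hP1, hQ1, ← h0] at e3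
    have h5 : (z : ℤ) = x + y + 2 * r := by
      rw [hXd, hYd, hZd, hRd]
      linarith
    exact_mod_cast h5
  · right
    obtain ⟨n, hn⟩ := Int.eq_ofNat_of_zero_le he0
    obtain ⟨p, hp⟩ := Int.eq_ofNat_of_zero_le hPpos.le
    obtain ⟨q, hq⟩ := Int.eq_ofNat_of_zero_le hQpos.le
    have f1 : x * n + 1 = p * p := by
      have : (x : ℤ) * n + 1 = p * p := by
        rw [hXd, ← hn, ← hp]
        exact e1
      exact_mod_cast this
    have f2 : y * n + 1 = q * q := by
      have : (y : ℤ) * n + 1 = q * q := by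
        rw [hYd, ← hn, ← hq]
        exact e2
      exact_mod_cast this
    have hn0 : 0 < n := by
      have : (0 : ℤ) < n := by
        rw [← hn]
        exact hpos
      exact_mod_cast this
    have hle : X * Y * e ≤ R * P * Q := by
      have h1 : (X * Y * e) ^ 2 ≤ (R * P * Q) ^ 2 := by
        have h2 : (R * P * Q) ^ 2 = (X * Y + 1) * ((X * e + 1) * (Y * e + 1)) := by
          rw [hR, e1, e2]
          ring
        rw [h2]
        have h3 : 0 < X * Y := mul_pos hX hY
        have h4 : 0 < X * e := mul_pos hX hpos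
        have h5 : 0 < Y * e := mul_pos hY hpos
        have h6 : (X * Y * e) ^ 2 = (X * Y) * ((X * e) * (Y * e)) := by ring
        rw [h6]
        apply mul_le_mul (by linarith) _ (by positivity) (by linarith)
        apply mul_le_mul (by linarith) (by linarith) (by positivity) (by linarith)
      have h7 : 0 ≤ R * P * Q := mul_nonneg (mul_nonneg hr0 hPpos.le) hQpos.le
      exact le_of_sq_le_sq h1 h7
    refine ⟨n, hn0, ?_, ?_, ⟨p, f1⟩, ⟨q, f2⟩, ?_, ?_⟩
    · rintro rfl
      apply not_sq_succ hX P hPpos.le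
      rw [← e1, hn, hXd]
    · rintro rfl
      apply not_sq_succ hY Q hQpos.le
      rw [← e2, hn, hYd]
    · have g1 : rst x y n = r * p * q := by
        unfold rst
        rw [hr, f1, f2, Nat.sqrt_eq, Nat.sqrt_eq, Nat.sqrt_eq]
      rw [g1]
      have : (z : ℤ) = x + y + n + 2 * x * y * n + 2 * (r * p * q) := by
        rw [hXd, hYd, hZd, hRd, ← hn, ← hp, ← hq]
        exact e3
      exact_mod_cast this
    · have : (4 : ℤ) * x * y * n < z := by
        rw [hXd, hYd, hZd, ← hn]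
        linarith
      exact_mod_cast this

end Pool.Agent.DIO.H18
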