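import Pool.Agent.Helper40_Dio.AStmt

/-! # DIO, module PEL: descent to a small solution of `a z² - c x² = a - c` (helper18) -/

set_option autoImplicit false

namespace Pool.Agent.DIO.H18

theorem sqg_succ (a c s z0 x0 : ℤ) (m : ℕ) (z x : ℤ) (h : sqg a c s z0 x0 m = (z, x)) :
    sqg a c s z0 x0 (m + 1) = (s * z + c * x, s * x + a * z) := by
  show (s * (sqg a c s z0 x0 m).1 + c * (sqg a c s z0 x0 m).2,
      s * (sqg a c s z0 x0 m).2 + a * (sqg a c s z0 x0 m).1) = _
  rw [h]

theorem pel_aux (a c s : ℤ) (ha : 0 < a) (hac : a < c) (hs : 0 < s) (hss : s * s = a * c + 1)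
    (N : ℕ) : ∀ z x : ℤ, z ≤ N → 0 < z → 0 < x → a * z ^ 2 - c * x ^ 2 = a - c →
    ∃ (m : ℕ) (z0 x0 : ℤ), 0 < x0 ∧ a * z0 ^ 2 - c * x0 ^ 2 = a - c ∧ 4 * z0 ^ 2 < c ^ 2 ∧
      sqg a c s z0 x0 m = (z, x) := by
  have hc : 0 < c := ha.trans hac
  have hs2 : 2 ≤ s := by
    by_contra hcon
    have h1 : s = 1 := by omega
    rw [h1] at hss
    nlinarith
  induction N with
  | zero =>
    intro z x h1 h2
    exfalso
    push_cast at h1
    omega
  | succ N ih =>
    intro z x hzN hz hx hn
    by_cases h4 : 4 * z ^ 2 < c ^ 2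
    · exact ⟨0, z, x, hx, hn, h4, rfl⟩
    rw [not_lt] at h4
    set z' := s * z - c * x with hz'
    set x' := s * x - a * z with hx'
    have hz1 : s * z' + c * x' = z := by
      rw [hz', hx']
      linear_combination z * hss
    have hx1 : s * x' + a * z' = x := by
      rw [hz', hx']
      linear_combination x * hss
    have hn' : a * z' ^ 2 - c * x' ^ 2 = a - c := by
      rw [hz', hx']
      linear_combination (a * z ^ 2 - c * x ^ 2) * hss + hn
    have hx'pos : 0 < x' := by
      have h5 : (a * z) ^ 2 < (s * x) ^ 2 := by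
        have h6 : (s * x) ^ 2 - (a * z) ^ 2 = x ^ 2 + a * (c - a) := by
          linear_combination x ^ 2 * hss - a * hn
        have h7 : 0 < x ^ 2 + a * (c - a) := by
          have := mul_pos ha (sub_pos.mpr hac)
          positivity
        linarith
      have h8 : a * z < s * x := lt_of_pow_lt_pow_left₀ 2 (by positivity) h5
      rw [hx']
      linarith
    -- the basic computation
    have key : ∀ w p : ℤ, 0 < w → c ^ 2 ≤ 4 * w ^ 2 → a * w ^ 2 - c * p ^ 2 = a - c →
        c * p < (s + 1) * w := by
      intro w p hw hw4 hwp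
      have h5 : (c * p) ^ 2 < ((s + 1) * w) ^ 2 := by
        have h6 : ((s + 1) * w) ^ 2 - (c * p) ^ 2 = (2 * s + 2) * w ^ 2 - c * (c - a) := by
          linear_combination w ^ 2 * hss + c * hwp
        have h7 : c * (c - a) < (2 * s + 2) * w ^ 2 := by
          have h8 : 6 * w ^ 2 ≤ (2 * s + 2) * w ^ 2 := by
            have : 0 ≤ w ^ 2 := by positivity
            nlinarith
          nlinarith
        linarith
      exact lt_of_pow_lt_pow_left₀ 2 (by positivity) h5
    have hup : z' < z := by
      by_contra hcon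
      rw [not_lt] at hcon
      have h5 : c * x ≤ (s - 1) * z := by
        rw [hz'] at hcon
        linarith
      have h6 : (c * x) ^ 2 ≤ ((s - 1) * z) ^ 2 := pow_le_pow_left₀ (by positivity) h5 2
      have h7 : ((s - 1) * z) ^ 2 - (c * x) ^ 2 = (2 - 2 * s) * z ^ 2 - c * (c - a) := by
        linear_combination z ^ 2 * hss + c * hn
      have h8 : 0 < c * (c - a) := mul_pos hc (sub_pos.mpr hac)
      have h9 : (2 - 2 * s) * z ^ 2 ≤ 0 := by
        have : 0 ≤ z ^ 2 := by positivity
        nlinarith
      linarith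
    have hlo : -z < z' := by
      have := key z x hz h4 hn
      rw [hz']
      linarith
    rcases lt_or_ge 0 z' with hpos | hneg
    · have hzN' : z' ≤ N := by
        push_cast at hzN
        omega
      obtain ⟨m, z0, x0, h5, h6, h7, h8⟩ := ih z' x' hzN' hpos hx'pos hn'
      refine ⟨m + 1, z0, x0, h5, h6, h7, ?_⟩
      rw [sqg_succ a c s z0 x0 m z' x' h8, hz1, hx1]
    · have h5 : 4 * z' ^ 2 < c ^ 2 := by
        by_contra hcon
        rw [not_lt] at hcon
        have hw : 0 < -z' := by
          rcases lt_or_eq_of_le hneg with h6 | h6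
          · linarith
          · exfalso
            rw [h6] at hcon
            nlinarith
        have h7 := key (-z') x' hw (by rw [neg_sq]; exact hcon) (by rw [neg_sq]; exact hn')
        linarith
      refine ⟨1, z', x', hx'pos, hn', h5, ?_⟩
      rw [sqg_succ a c s z' x' 0 z' x' rfl, hz1, hx1]

/-- module PEL -/
theorem pel : PelStatement := by
  intro a c s z x ha hac hs hss hz hx hn
  exact pel_aux a c s ha hac hs hss z.toNat z x (by omega) hz hx hn

end Pool.Agent.DIO.H18
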